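import Pool.Agent.H422R3.T4O.Sum

/-!
The bound for four orbits.
-/

namespace Pool.Agent.H422R3.T4O

open Finset Pool.Agent.H422R3.T34 MulAction

variable {V H : Type} [DecidableEq V] [Group H] [Fintype H] [MulAction H V]

section
variable (E : Finset (Finset V)) (hE : ∀ e ∈ E, e.card = 3) (hfree : K4Free E) (hinv : Inv H E)
  (h2 : ∀ a : H, a * a = 1) (hact : ∀ (a : H) (x : V), a • x = x → a = 1)
  (φ : Fin 4 × H → V) (hφ : Function.Injective φ) (heq : ∀ i a v, φ (i, v * a) = v • φ (i, a))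

omit [Group H] [MulAction H V] in
lemma sum_nd (i j k l : Fin 4) (hij : i ≠ j) (hik : i ≠ k) (hjk : j ≠ k)
    (hl : (univ : Finset (Fin 4)).erase l = {i, j, k}) :
    (∑ q : Fin 4 → H, nd E (pt φ q) l) + Fintype.card H * N E φ i j k = Fintype.card H ^ 4 := by
  classical
  have h1 : Fintype.card H * N E φ i j k =
      ∑ q : Fin 4 → H, ind E (φ (i, q i)) (φ (j, q j)) (φ (k, q k)) :=
    (sum_three (fun a b c => ind E (φ (i, a)) (φ (j, b)) (φ (k, c))) i j k hij hik hjk).symm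
  rw [h1, ← Finset.sum_add_distrib]
  have h3 : ∀ q : Fin 4 → H, nd E (pt φ q) l + ind E (φ (i, q i)) (φ (j, q j)) (φ (k, q k)) = 1 := by
    intro q
    unfold nd ind pt
    rw [hl]
    simp only [Finset.image_insert, Finset.image_singleton]
    split_ifs <;> rfl
  rw [Finset.sum_congr rfl fun q _ => h3 q]
  simp

/-- crossing edges -/
noncomputable def C (E : Finset (Finset V)) (φ : Fin 4 × H → V) : ℕ :=
  N E φ 0 1 2 + N E φ 0 1 3 + N E φ 0 2 3 + N E φ 1 2 3

omit [Group H] [MulAction H V] in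
lemma sum_g : (∑ q : Fin 4 → H, g E (pt φ q)) + Fintype.card H * C E φ = 4 * Fintype.card H ^ 4 := by
  have n3 := sum_nd E φ 0 1 2 3 (by decide) (by decide) (by decide) (by decide)
  have n2 := sum_nd E φ 0 1 3 2 (by decide) (by decide) (by decide) (by decide)
  have n1 := sum_nd E φ 0 2 3 1 (by decide) (by decide) (by decide) (by decide)
  have n0 := sum_nd E φ 1 2 3 0 (by decide) (by decide) (by decide) (by decide)
  have hg : ∑ q : Fin 4 → H, g E (pt φ q) = (∑ q : Fin 4 → H, nd E (pt φ q) 0) +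
      (∑ q : Fin 4 → H, nd E (pt φ q) 1) + (∑ q : Fin 4 → H, nd E (pt φ q) 2) +
      (∑ q : Fin 4 → H, nd E (pt φ q) 3) := by
    rw [← Finset.sum_add_distrib, ← Finset.sum_add_distrib, ← Finset.sum_add_distrib]
    refine Finset.sum_congr rfl fun q _ => ?_
    unfold g
    rw [Fin.sum_univ_four]
  rw [hg]
  unfold C
  linarith

/-- arcs for one group element -/
noncomputable def D (E : Finset (Finset V)) (φ : Fin 4 × H → V) (v : H) : ℕ :=
  ∑ i, ∑ j, if i ≠ j then P E φ v i j else 0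

lemma sum_deg (v : H) :
    ∑ q : Fin 4 → H, deg (code E v (pt φ q)) = Fintype.card H ^ 2 * D E φ v := by
  classical
  unfold deg D
  rw [Finset.sum_comm, Finset.mul_sum]
  refine Finset.sum_congr rfl fun i _ => ?_
  rw [Finset.sum_comm, Finset.mul_sum]
  refine Finset.sum_congr rfl fun j _ => ?_
  by_cases hij : i = j
  · subst hij
    simp [code]
  · rw [if_pos hij]
    have h1 : Fintype.card H ^ 2 * P E φ v i j =
        ∑ q : Fin 4 → H, ind E (φ (i, q i)) (v • φ (i, q i)) (φ (j, q j)) :=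
      (sum_two (fun a b => ind E (φ (i, a)) (v • φ (i, a)) (φ (j, b))) i j hij).symm
    rw [h1]
    refine Finset.sum_congr rfl fun q _ => ?_
    unfold code ind pt
    simp only [decide_eq_true_eq]
    by_cases h : ({φ (i, q i), v • φ (i, q i), φ (j, q j)} : Finset V) ∈ E
    · rw [if_pos ⟨hij, h⟩, if_pos h]
    · rw [if_neg (fun h' => h h'.2), if_neg h]

include hfree hφ heq in
lemma C_le : C E φ ≤ 3 * Fintype.card H ^ 3 := by
  have h1 := sum_g E φ
  have h3 : Fintype.card H ^ 4 ≤ ∑ q : Fin 4 → H, g E (pt φ q) := by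
    calc Fintype.card H ^ 4 = ∑ _q : Fin 4 → H, 1 := by simp
      _ ≤ _ := Finset.sum_le_sum fun q _ => g_pos E hfree (H := H) (pt φ q) (pt_trans φ hφ heq q)
  have hpos : 0 < Fintype.card H := Fintype.card_pos
  apply Nat.le_of_mul_le_mul_left (c := Fintype.card H) _ hpos
  have e : Fintype.card H * (3 * Fintype.card H ^ 3) = 3 * Fintype.card H ^ 4 := by ring
  rw [e]
  omega

include hfree hinv h2 hact hφ heq in
lemma one_elt (v : H) (hv : v ≠ 1) :
    4 * C E φ + 2 * (Fintype.card H * D E φ v) ≤ 23 * Fintype.card H ^ 3 := by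
  have h1 := sum_g E φ
  have h3 := cube_sum E hfree hinv h2 hact φ hφ heq v hv
  rw [sum_deg] at h3
  have hpos : 0 < Fintype.card H := Fintype.card_pos
  apply Nat.le_of_mul_le_mul_left (c := Fintype.card H) _ hpos
  nlinarith

/-- arcs in all -/
noncomputable def DD (E : Finset (Finset V)) (φ : Fin 4 × H → V) : ℕ :=
  ∑ i, ∑ j, if i ≠ j then N E φ i i j else 0

include heq in
lemma DD_eq : DD E φ = ∑ v : H, D E φ v := by
  unfold DD D
  rw [Finset.sum_comm]
  conv_rhs => rw [Finset.sum_comm]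
  rw [Finset.sum_comm]
  refine Finset.sum_congr rfl fun i _ => ?_
  rw [Finset.sum_comm]
  refine Finset.sum_congr rfl fun j _ => ?_
  by_cases hij : i = j
  · subst hij; simp
  · simp only [ne_eq, hij, not_false_eq_true, if_true]
    exact N_eq_P E φ heq i j

include hE hfree hinv h2 hact hφ heq in
lemma all_elt : 4 * ((Fintype.card H - 1) * C E φ) + 2 * (Fintype.card H * DD E φ) ≤
    23 * ((Fintype.card H - 1) * Fintype.card H ^ 3) := by
  classical
  have hD1 : D E φ 1 = 0 := by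
    unfold D
    refine Finset.sum_eq_zero fun i _ => Finset.sum_eq_zero fun j _ => ?_
    rw [P_one E hE]; simp
  have h3 : ∑ v ∈ univ.erase (1 : H), (4 * C E φ + 2 * (Fintype.card H * D E φ v)) ≤
      ∑ v ∈ univ.erase (1 : H), 23 * Fintype.card H ^ 3 :=
    Finset.sum_le_sum fun v hv =>
      one_elt E hfree hinv h2 hact φ hφ heq v (Finset.mem_erase.mp hv).1
  rw [Finset.sum_add_distrib, Finset.sum_const, Finset.sum_const, smul_eq_mul, smul_eq_mul,
    Finset.card_erase_of_mem (Finset.mem_univ _), Finset.card_univ, ← Finset.mul_sum,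
    ← Finset.mul_sum] at h3
  have h5 : ∑ v ∈ univ.erase (1 : H), D E φ v = DD E φ := by
    rw [DD_eq E φ heq, ← Finset.add_sum_erase univ _ (Finset.mem_univ (1 : H)), hD1, zero_add]
  rw [h5] at h3
  calc _ = (Fintype.card H - 1) * (4 * C E φ) + 2 * (Fintype.card H * DD E φ) := by ring
    _ ≤ _ := h3
    _ = _ := by ring

end

section
variable [Fintype V] (E : Finset (Finset V)) (hE : ∀ e ∈ E, e.card = 3) (hfree : K4Free E)
  (hinv : Inv H E)
  (h2 : ∀ a : H, a * a = 1) (hact : ∀ (a : H) (x : V), a • x = x → a = 1)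
  (φ : Fin 4 × H → V) (hφ : Function.Bijective φ) (heq : ∀ i a v, φ (i, v * a) = v • φ (i, a))

include hE hfree hinv h2 hact hφ heq in
lemma six_eq : 6 * E.card = 3 * DD E φ + 6 * C E φ := by
  rw [← six_card E hE, total E φ hφ]
  have hDD : DD E φ = N E φ 0 0 1 + N E φ 0 0 2 + N E φ 0 0 3 + (N E φ 1 1 0 + N E φ 1 1 2 +
      N E φ 1 1 3) + (N E φ 2 2 0 + N E φ 2 2 1 + N E φ 2 2 3) + (N E φ 3 3 0 + N E φ 3 3 1 +
      N E φ 3 3 2) := by
    unfold DD
    simp only [Fin.sum_univ_four]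
    simp
  rw [hDD]
  unfold C
  simp only [Fin.sum_univ_four]
  have s0 := N_same E hE hfree hinv h2 hact φ heq 0
  have s1 := N_same E hE hfree hinv h2 hact φ heq 1
  have s2 := N_same E hE hfree hinv h2 hact φ heq 2
  have s3 := N_same E hE hfree hinv h2 hact φ heq 3
  have p01 : N E φ 0 1 0 = N E φ 0 0 1 := N_comm23 _ _ _ _ _
  have r01 : N E φ 1 0 0 = N E φ 0 0 1 := by rw [N_comm12, p01]
  have p02 : N E φ 0 2 0 = N E φ 0 0 2 := N_comm23 _ _ _ _ _
  have r02 : N E φ 2 0 0 = N E φ 0 0 2 := by rw [N_comm12, p02]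
  have p03 : N E φ 0 3 0 = N E φ 0 0 3 := N_comm23 _ _ _ _ _
  have r03 : N E φ 3 0 0 = N E φ 0 0 3 := by rw [N_comm12, p03]
  have p10 : N E φ 1 0 1 = N E φ 1 1 0 := N_comm23 _ _ _ _ _
  have r10 : N E φ 0 1 1 = N E φ 1 1 0 := by rw [N_comm12, p10]
  have p12 : N E φ 1 2 1 = N E φ 1 1 2 := N_comm23 _ _ _ _ _
  have r12 : N E φ 2 1 1 = N E φ 1 1 2 := by rw [N_comm12, p12]
  have p13 : N E φ 1 3 1 = N E φ 1 1 3 := N_comm23 _ _ _ _ _
  have r13 : N E φ 3 1 1 = N E φ 1 1 3 := by rw [N_comm12, p13]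
  have p20 : N E φ 2 0 2 = N E φ 2 2 0 := N_comm23 _ _ _ _ _
  have r20 : N E φ 0 2 2 = N E φ 2 2 0 := by rw [N_comm12, p20]
  have p21 : N E φ 2 1 2 = N E φ 2 2 1 := N_comm23 _ _ _ _ _
  have r21 : N E φ 1 2 2 = N E φ 2 2 1 := by rw [N_comm12, p21]
  have p23 : N E φ 2 3 2 = N E φ 2 2 3 := N_comm23 _ _ _ _ _
  have r23 : N E φ 3 2 2 = N E φ 2 2 3 := by rw [N_comm12, p23]
  have p30 : N E φ 3 0 3 = N E φ 3 3 0 := N_comm23 _ _ _ _ _
  have r30 : N E φ 0 3 3 = N E φ 3 3 0 := by rw [N_comm12, p30]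
  have p31 : N E φ 3 1 3 = N E φ 3 3 1 := N_comm23 _ _ _ _ _
  have r31 : N E φ 1 3 3 = N E φ 3 3 1 := by rw [N_comm12, p31]
  have p32 : N E φ 3 2 3 = N E φ 3 3 2 := N_comm23 _ _ _ _ _
  have r32 : N E φ 2 3 3 = N E φ 3 3 2 := by rw [N_comm12, p32]
  have x021 : N E φ 0 2 1 = N E φ 0 1 2 := N_comm23 _ _ _ _ _
  have x102 : N E φ 1 0 2 = N E φ 0 1 2 := N_comm12 _ _ _ _ _
  have x120 : N E φ 1 2 0 = N E φ 0 1 2 := by rw [N_comm23, x102]
  have x201 : N E φ 2 0 1 = N E φ 0 1 2 := by rw [N_comm12, x021]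
  have x210 : N E φ 2 1 0 = N E φ 0 1 2 := by rw [N_comm12, x120]
  have x031 : N E φ 0 3 1 = N E φ 0 1 3 := N_comm23 _ _ _ _ _
  have x103 : N E φ 1 0 3 = N E φ 0 1 3 := N_comm12 _ _ _ _ _
  have x130 : N E φ 1 3 0 = N E φ 0 1 3 := by rw [N_comm23, x103]
  have x301 : N E φ 3 0 1 = N E φ 0 1 3 := by rw [N_comm12, x031]
  have x310 : N E φ 3 1 0 = N E φ 0 1 3 := by rw [N_comm12, x130]
  have x032 : N E φ 0 3 2 = N E φ 0 2 3 := N_comm23 _ _ _ _ _
  have x203 : N E φ 2 0 3 = N E φ 0 2 3 := N_comm12 _ _ _ _ _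
  have x230 : N E φ 2 3 0 = N E φ 0 2 3 := by rw [N_comm23, x203]
  have x302 : N E φ 3 0 2 = N E φ 0 2 3 := by rw [N_comm12, x032]
  have x320 : N E φ 3 2 0 = N E φ 0 2 3 := by rw [N_comm12, x230]
  have x132 : N E φ 1 3 2 = N E φ 1 2 3 := N_comm23 _ _ _ _ _
  have x213 : N E φ 2 1 3 = N E φ 1 2 3 := N_comm12 _ _ _ _ _
  have x231 : N E φ 2 3 1 = N E φ 1 2 3 := by rw [N_comm23, x213]
  have x312 : N E φ 3 1 2 = N E φ 1 2 3 := by rw [N_comm12, x132]
  have x321 : N E φ 3 2 1 = N E φ 1 2 3 := by rw [N_comm12, x231]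
  omega

include hE hfree hinv h2 hact hφ heq in
/-- the bound for the number of edges -/
theorem bound4 : 12 * E.card + 33 * Fintype.card H ^ 2 ≤ 69 * Fintype.card H ^ 3 := by
  have a1 := six_eq E hE hfree hinv h2 hact φ hφ heq
  have a2 := all_elt E hE hfree hinv h2 hact φ hφ.injective heq
  have a3 := C_le E hfree φ hφ.injective heq
  have hpos : 0 < Fintype.card H := Fintype.card_pos
  obtain ⟨k, hk⟩ : ∃ k, Fintype.card H = k + 1 := ⟨Fintype.card H - 1, by omega⟩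
  rw [hk] at a2 a3 ⊢
  rw [Nat.add_sub_cancel] at a2
  apply Nat.le_of_mul_le_mul_left (c := k + 1) _ (by omega)
  have a4 : 2 * (k + 1) * (6 * E.card) = 2 * (k + 1) * (3 * DD E φ + 6 * C E φ) := by rw [a1]
  nlinarith

end

end Pool.Agent.H422R3.T4O
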