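import Pool.Agent.H422R3.T34.Final

/-!
Counting by types of triples, any number of orbits.
-/

namespace Pool.Agent.H422R3.T4O

open Finset Pool.Agent.H422R3.T34

variable {V H : Type} [Fintype V] [DecidableEq V] [Group H] [Fintype H] [MulAction H V] {m : ℕ}

/-- number of ordered edges of a given type -/
noncomputable def N (E : Finset (Finset V)) (φ : Fin m × H → V) (i j k : Fin m) : ℕ :=
  ∑ a, ∑ b, ∑ c, ind E (φ (i, a)) (φ (j, b)) (φ (k, c))

omit [Fintype V] [MulAction H V] [Group H] in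
lemma N_comm12 (E : Finset (Finset V)) (φ : Fin m × H → V) (i j k : Fin m) :
    N E φ i j k = N E φ j i k := by
  unfold N
  rw [Finset.sum_comm]
  refine Finset.sum_congr rfl fun a _ => Finset.sum_congr rfl fun b _ =>
    Finset.sum_congr rfl fun c _ => ind_comm12 _ _ _ _

omit [Fintype V] [MulAction H V] [Group H] in
lemma N_comm23 (E : Finset (Finset V)) (φ : Fin m × H → V) (i j k : Fin m) :
    N E φ i j k = N E φ i k j := by
  unfold N
  refine Finset.sum_congr rfl fun a _ => ?_
  rw [Finset.sum_comm]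
  refine Finset.sum_congr rfl fun b _ =>
    Finset.sum_congr rfl fun c _ => ind_comm23 _ _ _ _

omit [MulAction H V] [Group H] in
lemma total (E : Finset (Finset V)) (φ : Fin m × H → V) (hφ : Function.Bijective φ) :
    ∑ x, ∑ y, ∑ z, ind E x y z = ∑ i, ∑ j, ∑ k, N E φ i j k := by
  have key : ∀ F : V → ℕ, ∑ x, F x = ∑ i, ∑ a, F (φ (i, a)) := by
    intro F
    rw [← Equiv.sum_comp (Equiv.ofBijective φ hφ), Fintype.sum_prod_type]
    rfl
  unfold N
  rw [key]
  refine Finset.sum_congr rfl fun i _ => ?_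
  have h1 : ∀ a, ∑ y, ∑ z, ind E (φ (i, a)) y z =
      ∑ j, ∑ b, ∑ k, ∑ c, ind E (φ (i, a)) (φ (j, b)) (φ (k, c)) := by
    intro a
    rw [key]
    refine Finset.sum_congr rfl fun j _ => Finset.sum_congr rfl fun b _ => ?_
    rw [key]
  simp_rw [h1]
  rw [Finset.sum_comm]
  refine Finset.sum_congr rfl fun j _ => ?_
  have h2 : ∀ a, ∑ b, ∑ k, ∑ c, ind E (φ (i, a)) (φ (j, b)) (φ (k, c)) =
      ∑ k, ∑ b, ∑ c, ind E (φ (i, a)) (φ (j, b)) (φ (k, c)) := fun a => Finset.sum_comm
  simp_rw [h2]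
  rw [Finset.sum_comm]

omit [Fintype V] in
lemma N_same (E : Finset (Finset V)) (hE : ∀ e ∈ E, e.card = 3) (hfree : K4Free E)
    (hinv : Inv H E) (h2 : ∀ a : H, a * a = 1) (hact : ∀ (a : H) (x : V), a • x = x → a = 1)
    (φ : Fin m × H → V) (heq : ∀ i a v, φ (i, v * a) = v • φ (i, a)) (i : Fin m) :
    N E φ i i i = 0 := by
  unfold N
  refine Finset.sum_eq_zero fun a _ => Finset.sum_eq_zero fun b _ => Finset.sum_eq_zero fun c _ => ?_
  unfold ind
  rw [if_neg]
  have hb : φ (i, b) = (b * a⁻¹) • φ (i, a) := by rw [← heq]; simp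
  have hc : φ (i, c) = (c * a⁻¹) • φ (i, a) := by rw [← heq]; simp
  rw [hb, hc]
  exact same_orbit E hE hfree hinv h2 hact _ _ _

/-- number of edges `x, v x, y` -/
noncomputable def P (E : Finset (Finset V)) (φ : Fin m × H → V) (v : H) (i j : Fin m) : ℕ :=
  ∑ a, ∑ b, ind E (φ (i, a)) (v • φ (i, a)) (φ (j, b))

omit [Fintype V] in
lemma N_eq_P (E : Finset (Finset V)) (φ : Fin m × H → V)
    (heq : ∀ i a v, φ (i, v * a) = v • φ (i, a)) (i j : Fin m) :
    N E φ i i j = ∑ v : H, P E φ v i j := by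
  unfold N P
  rw [Finset.sum_comm (s := (univ : Finset H)) (t := (univ : Finset H))
    (f := fun v a => ∑ b, ind E (φ (i, a)) (v • φ (i, a)) (φ (j, b)))]
  refine Finset.sum_congr rfl fun a _ => ?_
  rw [← Equiv.sum_comp (Equiv.mulRight a)]
  refine Finset.sum_congr rfl fun v _ => Finset.sum_congr rfl fun b _ => ?_
  simp only [Equiv.coe_mulRight]
  rw [heq]

omit [Fintype V] in
lemma P_one (E : Finset (Finset V)) (hE : ∀ e ∈ E, e.card = 3) (φ : Fin m × H → V) (i j : Fin m) :
    P E φ 1 i j = 0 := by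
  unfold P
  refine Finset.sum_eq_zero fun a _ => Finset.sum_eq_zero fun b _ => ?_
  unfold ind
  rw [if_neg]
  intro h
  have := hE _ h
  rw [one_smul, Finset.insert_eq_of_mem (by simp)] at this
  have := Finset.card_le_two (a := φ (i, a)) (b := φ (j, b))
  omega

omit [Fintype V] in
lemma N_pair (E : Finset (Finset V)) (hE : ∀ e ∈ E, e.card = 3) (hfree : K4Free E)
    (hinv : Inv H E) (h2 : ∀ a : H, a * a = 1) (hact : ∀ (a : H) (x : V), a • x = x → a = 1)
    (φ : Fin m × H → V) (hφ : Function.Injective φ)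
    (heq : ∀ i a v, φ (i, v * a) = v • φ (i, a)) (i j : Fin m) (hij : i ≠ j) :
    N E φ i i j + N E φ j j i ≤ (Fintype.card H - 1) * Fintype.card H ^ 2 := by
  classical
  rw [N_eq_P E φ heq, N_eq_P E φ heq, ← Finset.sum_add_distrib]
  have h3 : ∀ v : H, P E φ v i j + P E φ v j i ≤ if v = 1 then 0 else Fintype.card H ^ 2 := by
    intro v
    split_ifs with hv
    · rw [hv, P_one E hE, P_one E hE]
    · unfold P
      rw [Finset.sum_comm (f := fun a b => ind E (φ (j, a)) (v • φ (j, a)) (φ (i, b)))]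
      rw [← Finset.sum_add_distrib]
      simp_rw [← Finset.sum_add_distrib]
      calc _ ≤ ∑ _a : H, ∑ _b : H, 1 := by
            refine Finset.sum_le_sum fun a _ => Finset.sum_le_sum fun b _ => ?_
            apply pair_orbits E hfree hinv h2 hact _ _ v hv
            intro w hw
            rw [← heq] at hw
            have := hφ hw
            exact hij (congrArg Prod.fst this)
        _ = Fintype.card H ^ 2 := by simp; ring
  calc _ ≤ ∑ v : H, (if v = 1 then 0 else Fintype.card H ^ 2) := Finset.sum_le_sum fun v _ => h3 v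
    _ = (Fintype.card H - 1) * Fintype.card H ^ 2 := by
      rw [Finset.sum_ite, Finset.sum_const_zero, zero_add, Finset.sum_const, smul_eq_mul]
      congr 1
      rw [Finset.filter_ne' univ (1 : H), Finset.card_erase_of_mem (Finset.mem_univ _), Finset.card_univ]

end Pool.Agent.H422R3.T4O
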