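import Pool.Agent.H422R3.T4O.Count

/-!
The cube inequality for four orbits.
-/

namespace Pool.Agent.H422R3.T4O

open Finset Pool.Agent.H422R3.T34

/-- tournament with given arcs -/
def tour (b0 b1 b2 b3 b4 b5 : Bool) : Fin 4 → Fin 4 → Bool :=
  ![![false, b0, b1, b2], ![!b0, false, b3, b4], ![!b1, !b3, false, b5], ![!b2, !b4, !b5, false]]

/-- two patterns in tournaments on four vertices -/
lemma tour_pat : ∀ b0 b1 b2 b3 b4 b5 : Bool,
    (∃ i, ∀ j, j ≠ i → tour b0 b1 b2 b3 b4 b5 i j = true) ∨
    (∃ a b c d : Fin 4, a ≠ b ∧ a ≠ c ∧ a ≠ d ∧ b ≠ c ∧ b ≠ d ∧ c ≠ d ∧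
      tour b0 b1 b2 b3 b4 b5 a b = true ∧ tour b0 b1 b2 b3 b4 b5 a c = true ∧
      tour b0 b1 b2 b3 b4 b5 b c = true ∧ tour b0 b1 b2 b3 b4 b5 b d = true) := by
  decide

lemma pat (c : Fin 4 → Fin 4 → Bool) (hc : ∀ i j, i ≠ j → c i j = true ∨ c j i = true) :
    (∃ i, ∀ j, j ≠ i → c i j = true) ∨
    (∃ a b c' d : Fin 4, a ≠ b ∧ a ≠ c' ∧ a ≠ d ∧ b ≠ c' ∧ b ≠ d ∧ c' ≠ d ∧
      c a b = true ∧ c a c' = true ∧ c b c' = true ∧ c b d = true) := by
  have key : ∀ i j, tour (c 0 1) (c 0 2) (c 0 3) (c 1 2) (c 1 3) (c 2 3) i j = true → c i j = true := by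
    intro i j h
    have h01 := hc 0 1 (by decide)
    have h02 := hc 0 2 (by decide)
    have h03 := hc 0 3 (by decide)
    have h12 := hc 1 2 (by decide)
    have h13 := hc 1 3 (by decide)
    have h23 := hc 2 3 (by decide)
    fin_cases i <;> fin_cases j <;> simp [tour] at h <;> simp_all
  rcases tour_pat (c 0 1) (c 0 2) (c 0 3) (c 1 2) (c 1 3) (c 2 3) with ⟨i, hi⟩ |
    ⟨a, b, c', d, h1, h2, h3, h4, h5, h6, h7, h8, h9, h10⟩
  · exact Or.inl ⟨i, fun j hj => key _ _ (hi j hj)⟩
  · exact Or.inr ⟨a, b, c', d, h1, h2, h3, h4, h5, h6, key _ _ h7, key _ _ h8, key _ _ h9, key _ _ h10⟩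

lemma erase_eq : ∀ i l : Fin 4, l ≠ i → ∃ j k : Fin 4, j ≠ i ∧ j ≠ l ∧ k ≠ i ∧ k ≠ l ∧ j ≠ k ∧
    (univ : Finset (Fin 4)).erase l = {i, j, k} := by decide

variable {V H : Type} [DecidableEq V] [Group H] [Fintype H] [MulAction H V]

/-- nonedge indicator of the triple which omits the orbit `l` -/
noncomputable def nd (E : Finset (Finset V)) (x : Fin 4 → V) (l : Fin 4) : ℕ :=
  if (univ.erase l).image x ∈ E then 0 else 1

/-- shifting one point -/
def sh (v : H) (x : Fin 4 → V) (k : Fin 4) : Fin 4 → V := Function.update x k (v • x k)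

/-- orientations -/
noncomputable def code (E : Finset (Finset V)) (v : H) (x : Fin 4 → V) : Fin 4 → Fin 4 → Bool :=
  fun i j => decide (i ≠ j ∧ ({x i, v • x i, x j} : Finset V) ∈ E)

/-- points in different orbits -/
def Trans (H : Type) [Group H] [MulAction H V] (x : Fin 4 → V) : Prop :=
  ∀ i j, i ≠ j → ∀ a : H, a • x i ≠ x j

omit [DecidableEq V] [Fintype H] in
lemma trans_sh {x : Fin 4 → V} (hx : Trans H x) (v : H) (k : Fin 4) : Trans H (sh v x k) := by
  intro i j hij a
  unfold sh
  by_cases hi : i = k
  · subst hi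
    rw [Function.update_self, Function.update_of_ne hij.symm, ← mul_smul]
    exact hx i j hij _
  · by_cases hj : j = k
    · subst hj
      rw [Function.update_self, Function.update_of_ne hi]
      intro h
      apply hx i j hij (v⁻¹ * a)
      rw [mul_smul, h, inv_smul_smul]
    · rw [Function.update_of_ne hi, Function.update_of_ne hj]
      exact hx i j hij a

omit [DecidableEq V] [Fintype H] in
lemma sh_comm (v : H) (x : Fin 4 → V) (a b : Fin 4) (hab : a ≠ b) :
    sh v (sh v x a) b = sh v (sh v x b) a := by
  unfold sh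
  rw [Function.update_of_ne hab.symm, Function.update_of_ne hab, Function.update_comm hab]

section
variable (E : Finset (Finset V)) (hfree : K4Free E) (hinv : Inv H E) (h2 : ∀ a : H, a * a = 1)
  (hact : ∀ (a : H) (x : V), a • x = x → a = 1) (v : H) (hv : v ≠ 1)

include h2 hinv in
omit [Fintype H] in
lemma code_sh (x : Fin 4 → V) (k : Fin 4) : code E v (sh v x k) = code E v x := by
  have hvv : ∀ y : V, v • v • y = y := fun y => by rw [← mul_smul, h2, one_smul]
  funext i j
  unfold code sh
  congr 1
  apply propext
  constructor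
  · rintro ⟨hij, h⟩
    refine ⟨hij, ?_⟩
    by_cases hi : i = k
    · subst hi
      rw [Function.update_self, Function.update_of_ne hij.symm, hvv, Finset.insert_comm] at h
      exact h
    · by_cases hj : j = k
      · subst hj
        rw [Function.update_self, Function.update_of_ne hi] at h
        have h3 := inv_triple E hinv v _ _ _ h
        rw [hvv, hvv, Finset.insert_comm] at h3
        exact h3
      · rw [Function.update_of_ne hi, Function.update_of_ne hj] at h
        exact h
  · rintro ⟨hij, h⟩
    refine ⟨hij, ?_⟩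
    by_cases hi : i = k
    · subst hi
      rw [Function.update_self, Function.update_of_ne hij.symm, hvv, Finset.insert_comm]
      exact h
    · by_cases hj : j = k
      · subst hj
        rw [Function.update_self, Function.update_of_ne hi]
        have h3 := inv_triple E hinv v _ _ _ h
        rw [hvv, Finset.insert_comm] at h3
        exact h3
      · rw [Function.update_of_ne hi, Function.update_of_ne hj]
        exact h

include hfree hact hv in
omit [Fintype H] in
/-- the source inequality -/
lemma source (x : Fin 4 → V) (hx : Trans H x) (i l : Fin 4) (hli : l ≠ i)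
    (h : ∀ j, j ≠ i → j ≠ l → code E v x i j = true) : 1 ≤ nd E x l + nd E (sh v x i) l := by
  obtain ⟨j, k, hji, hjl, hki, hkl, hjk, he⟩ := erase_eq i l hli
  have hj := h j hji hjl
  have hk := h k hki hkl
  unfold code at hj hk
  simp only [decide_eq_true_eq] at hj hk
  by_contra hcon
  unfold nd at hcon
  rw [he] at hcon
  have e1 : ({i, j, k} : Finset (Fin 4)).image x = {x i, x j, x k} := by
    simp [Finset.image_insert]
  have e2 : ({i, j, k} : Finset (Fin 4)).image (sh v x i) = {v • x i, x j, x k} := by
    unfold sh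
    simp [Finset.image_insert, Function.update_of_ne hji, Function.update_of_ne hki]
  rw [e1, e2] at hcon
  have c1 : ({x i, x j, x k} : Finset V) ∈ E := by
    by_contra h'; rw [if_neg h'] at hcon; omega
  have c2 : ({v • x i, x j, x k} : Finset V) ∈ E := by
    by_contra h'; rw [if_neg h'] at hcon; omega
  have n : ∀ a b, a ≠ b → x a ≠ x b := fun a b hab h' => hx a b hab 1 (by rw [one_smul]; exact h')
  exact hfree (x i) (v • x i) (x j) (x k) (fun h' => hv (hact v _ h'.symm)) (n _ _ hji.symm)
    (n _ _ hki.symm) (hx i j hji.symm v) (hx i k hki.symm v) (n _ _ hjk) ⟨hj.2, hk.2, c1, c2⟩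

/-- number of nonedges among the four points -/
noncomputable def g (x : Fin 4 → V) : ℕ := ∑ l, nd E x l

include hfree in
omit [Fintype H] in
lemma g_pos (x : Fin 4 → V) (hx : Trans H x) : 1 ≤ g E x := by
  by_contra hcon
  have h0 : g E x = 0 := by omega
  unfold g at h0
  rw [Finset.sum_eq_zero_iff] at h0
  have n : ∀ a b, a ≠ b → x a ≠ x b := fun a b hab h' => hx a b hab 1 (by rw [one_smul]; exact h')
  have key : ∀ l, (univ.erase l).image x ∈ E := by
    intro l
    by_contra h'
    have := h0 l (Finset.mem_univ _)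
    unfold nd at this
    rw [if_neg h'] at this
    omega
  have k3 := key 3
  have k2 := key 2
  have k1 := key 1
  have k0 := key 0
  have e3 : (univ : Finset (Fin 4)).erase 3 = {0, 1, 2} := by decide
  have e2 : (univ : Finset (Fin 4)).erase 2 = {0, 1, 3} := by decide
  have e1 : (univ : Finset (Fin 4)).erase 1 = {0, 2, 3} := by decide
  have e0 : (univ : Finset (Fin 4)).erase 0 = {1, 2, 3} := by decide
  rw [e3] at k3
  rw [e2] at k2
  rw [e1] at k1
  rw [e0] at k0
  simp only [Finset.image_insert, Finset.image_singleton] at k0 k1 k2 k3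
  exact hfree (x 0) (x 1) (x 2) (x 3) (n _ _ (by decide)) (n _ _ (by decide)) (n _ _ (by decide))
    (n _ _ (by decide)) (n _ _ (by decide)) (n _ _ (by decide)) ⟨k3, k2, k1, k0⟩

omit [Group H] [Fintype H] [MulAction H V] in
lemma nd_le (x : Fin 4 → V) (a b : Fin 4) (hab : a ≠ b) : nd E x a + nd E x b ≤ g E x := by
  unfold g
  rw [← Finset.sum_pair hab]
  exact Finset.sum_le_sum_of_subset (Finset.subset_univ _)

include hfree hinv h2 hact hv in
omit [Fintype H] in
lemma good (c : Fin 4 → Fin 4 → Bool) (hc : ∀ i j, i ≠ j → c i j = true ∨ c j i = true) :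
    ∃ a b : Fin 4, a ≠ b ∧ ∀ x : Fin 4 → V, Trans H x → code E v x = c →
      5 ≤ g E x + g E (sh v x a) + g E (sh v x b) + g E (sh v (sh v x a) b) := by
  rcases pat c hc with ⟨i, hi⟩ | ⟨a, b, c', d, hab, hac, had, hbc, hbd, hcd, k1, k2, k3, k4⟩
  · have hall : ∀ i : Fin 4, ∃ b : Fin 4, i ≠ b := by decide
    obtain ⟨b, hb⟩ := hall i
    refine ⟨i, b, hb, ?_⟩
    have key : ∀ x : Fin 4 → V, Trans H x → code E v x = c → 3 ≤ g E x + g E (sh v x i) := by
      intro x hx hcx
      unfold g
      rw [← Finset.sum_add_distrib]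
      have h3 : ((univ : Finset (Fin 4)).erase i).card = 3 := by
        rw [Finset.card_erase_of_mem (Finset.mem_univ _)]; simp
      calc 3 = ∑ _l ∈ (univ : Finset (Fin 4)).erase i, 1 := by rw [Finset.sum_const, h3]; rfl
        _ ≤ ∑ l ∈ (univ : Finset (Fin 4)).erase i, (nd E x l + nd E (sh v x i) l) := by
          refine Finset.sum_le_sum fun l hl => ?_
          have hl' : l ≠ i := (Finset.mem_erase.mp hl).1
          exact source E hfree hact v hv x hx i l hl' (fun j hj _ => by rw [hcx]; exact hi j hj)
        _ ≤ _ := Finset.sum_le_sum_of_subset (Finset.subset_univ _)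
    intro x hx hcx
    have h1 := key x hx hcx
    have h3 := key (sh v x b) (trans_sh hx v b) (by rw [code_sh E hinv h2 v, hcx])
    rw [sh_comm v x b i hb.symm] at h3
    omega
  · refine ⟨a, b, hab, ?_⟩
    intro x hx hcx
    have hxa := trans_sh hx v a
    have hxb := trans_sh hx v b
    have hxab := trans_sh hxa v b
    have p1 := g_pos E hfree (H := H) x hx
    have p2 := g_pos E hfree (H := H) _ hxa
    have p3 := g_pos E hfree (H := H) _ hxb
    have p4 := g_pos E hfree (H := H) _ hxab
    have l1 := nd_le E x d a had.symm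
    have l2 := nd_le E (sh v x a) d a had.symm
    have l3 := nd_le E (sh v x b) d a had.symm
    have l4 := nd_le E (sh v (sh v x a) b) d a had.symm
    have cov : ∀ t : Fin 4, t = a ∨ t = b ∨ t = c' ∨ t = d := by
      clear * - hab hac had hbc hbd hcd
      revert a b c' d
      decide
    -- source a, omitting d
    have srcA : ∀ j, j ≠ a → j ≠ d → c a j = true := by
      intro j h1 h3
      rcases cov j with rfl | rfl | rfl | rfl
      · exact absurd rfl h1
      · exact k1
      · exact k2
      · exact absurd rfl h3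
    have srcB : ∀ j, j ≠ b → j ≠ a → c b j = true := by
      intro j h1 h3
      rcases cov j with rfl | rfl | rfl | rfl
      · exact absurd rfl h3
      · exact absurd rfl h1
      · exact k3
      · exact k4
    have s1 := source E hfree hact v hv x hx a d had.symm (by rw [hcx]; exact srcA)
    have s2 := source E hfree hact v hv (sh v x b) hxb a d had.symm
      (by rw [code_sh E hinv h2 v, hcx]; exact srcA)
    rw [sh_comm v x b a hab.symm] at s2
    have s3 := source E hfree hact v hv x hx b a hab (by rw [hcx]; exact srcB)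
    have i1 : nd E (sh v x a) a = nd E x a := by
      unfold nd sh
      have : (univ.erase a).image (Function.update x a (v • x a)) = (univ.erase a).image x := by
        apply Finset.image_congr
        intro t ht
        simp only [Finset.coe_erase, Set.mem_sdiff, Set.mem_singleton_iff] at ht
        exact Function.update_of_ne ht.2 _ _
      rw [this]
    have i2 : nd E (sh v (sh v x a) b) a = nd E (sh v x b) a := by
      rw [sh_comm v x a b hab]
      unfold nd sh
      have : (univ.erase a).image (Function.update (Function.update x b (v • x b)) a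
          (v • (Function.update x b (v • x b)) a)) = (univ.erase a).image (Function.update x b (v • x b)) := by
        apply Finset.image_congr
        intro t ht
        simp only [Finset.coe_erase, Set.mem_sdiff, Set.mem_singleton_iff] at ht
        exact Function.update_of_ne ht.2 _ _
      rw [this]
    omega

end

end Pool.Agent.H422R3.T4O
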