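import Pool.Agent.H422R3.T4O.Final

/-!
Version for `K_4^3`-free 3-graphs.
-/

namespace Pool.Agent.H422R3.T4O

open Finset Pool.Agent.H422R3.T34 MulAction

variable {V H : Type} [Fintype V] [DecidableEq V] [Group H] [Fintype H] [MulAction H V]

theorem main_edges (h2 : ∀ a : H, a * a = 1) (hact : ∀ (a : H) (x : V), a • x = x → a = 1)
    (horb : Fintype.card V ≤ 4 * Fintype.card H) (E : Finset (Finset V))
    (hE : ∀ e ∈ E, e.card = 3) (hfree : K4Free E) (hinv : Inv H E) :
    E.card + turan (Fintype.card V) ≤ (Fintype.card V).choose 3 := by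
  have hsub : E ⊆ univ.powersetCard 3 := by
    intro s hs
    exact Finset.mem_powersetCard.mpr ⟨Finset.subset_univ _, hE s hs⟩
  have hc := Finset.card_sdiff_add_card_eq_card hsub
  rw [Finset.card_powersetCard, Finset.card_univ] at hc
  have hm := main (H := H) h2 hact horb ((univ.powersetCard 3) \ E)
    (fun e he => (Finset.mem_powersetCard.mp (Finset.mem_sdiff.mp he).1).2)
    (by
      intro a b c d hab hac had hbc hbd hcd
      by_contra hcon
      push Not at hcon
      obtain ⟨n1, n2, n3, n4⟩ := hcon
      have key : ∀ x y z : V, x ≠ y → x ≠ z → y ≠ z →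
          ({x, y, z} : Finset V) ∉ (univ.powersetCard 3) \ E → ({x, y, z} : Finset V) ∈ E := by
        intro x y z hxy hxz hyz hn
        by_contra h'
        apply hn
        refine Finset.mem_sdiff.mpr ⟨Finset.mem_powersetCard.mpr ⟨Finset.subset_univ _, ?_⟩, h'⟩
        exact Finset.card_eq_three.mpr ⟨x, y, z, hxy, hxz, hyz, rfl⟩
      exact hfree a b c d hab hac had hbc hbd hcd ⟨key _ _ _ hab hac hbc n1, key _ _ _ hab had hbd n2,
        key _ _ _ hac had hcd n3, key _ _ _ hbc hbd hcd n4⟩)
    (by
      intro v s hs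
      obtain ⟨hs1, hs2⟩ := Finset.mem_sdiff.mp hs
      refine Finset.mem_sdiff.mpr ⟨Finset.mem_powersetCard.mpr ⟨Finset.subset_univ _, ?_⟩, ?_⟩
      · rw [Finset.card_image_of_injective _ (MulAction.injective v)]
        exact (Finset.mem_powersetCard.mp hs1).2
      · intro hG'
        have := hinv v⁻¹ _ hG'
        rw [Finset.image_image] at this
        have h6 : ((fun x : V => v⁻¹ • x) ∘ fun x => v • x) = id := by
          funext x; simp
        rw [h6, Finset.image_id] at this
        exact hs2 this)
  omega

end Pool.Agent.H422R3.T4O
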