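import Pool.Agent.H422R3.T4O.Bound

/-!
Coverings invariant under a free elementary abelian 2-group with at most four orbits.
-/

namespace Pool.Agent.H422R3.T4O

open Finset Pool.Agent.H422R3.T34 MulAction

/-- Turán's numbers -/
def turan (n : ℕ) : ℕ :=
  if n % 3 = 0 then (n / 3) * (n / 3 - 1) * (2 * (n / 3) - 1)
  else if n % 3 = 1 then (n / 3) ^ 2 * (2 * (n / 3) - 1)
  else (n / 3) ^ 2 * (2 * (n / 3) + 1)

lemma turan0 (k : ℕ) : turan (3 * (k + 1)) = (k + 1) * k * (2 * k + 1) := by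
  unfold turan
  rw [if_pos (by omega), show 3 * (k + 1) / 3 = k + 1 by omega, show k + 1 - 1 = k by omega,
    show 2 * (k + 1) - 1 = 2 * k + 1 by omega]

lemma turan1 (k : ℕ) : turan (3 * (k + 1) + 1) = (k + 1) ^ 2 * (2 * k + 1) := by
  unfold turan
  rw [if_neg (by omega), if_pos (by omega), show (3 * (k + 1) + 1) / 3 = k + 1 by omega,
    show 2 * (k + 1) - 1 = 2 * k + 1 by omega]

lemma turan2 (k : ℕ) : turan (3 * k + 2) = k ^ 2 * (2 * k + 1) := by
  unfold turan
  rw [if_neg (by omega), if_neg (by omega), show (3 * k + 2) / 3 = k by omega]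

/-- all numbers by residue -/
lemma cases3 (n : ℕ) : n = 0 ∨ n = 1 ∨ (∃ k, n = 3 * (k + 1)) ∨ (∃ k, n = 3 * (k + 1) + 1) ∨
    ∃ k, n = 3 * k + 2 := by
  rcases Nat.lt_or_ge n 3 with h | h
  · interval_cases n
    · simp
    · simp
    · exact Or.inr (Or.inr (Or.inr (Or.inr ⟨0, rfl⟩)))
  · have h1 : n % 3 = 0 ∨ n % 3 = 1 ∨ n % 3 = 2 := by omega
    rcases h1 with h1 | h1 | h1
    · exact Or.inr (Or.inr (Or.inl ⟨n / 3 - 1, by omega⟩))
    · exact Or.inr (Or.inr (Or.inr (Or.inl ⟨n / 3 - 1, by omega⟩)))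
    · exact Or.inr (Or.inr (Or.inr (Or.inr ⟨n / 3, by omega⟩)))

lemma six_choose (n : ℕ) : 6 * (n + 2).choose 3 = (n + 2) * (n + 1) * n := by
  have := Nat.descFactorial_eq_factorial_mul_choose (n + 2) 3
  simp only [Nat.descFactorial_succ, Nat.descFactorial_zero, Nat.factorial] at this
  norm_num at this
  rw [← this]
  ring

/-- one orbit -/
lemma num1 (N : ℕ) : turan N ≤ N.choose 3 := by
  rcases cases3 N with rfl | rfl | ⟨k, rfl⟩ | ⟨k, rfl⟩ | ⟨k, rfl⟩
  · decide
  · decide
  · rw [turan0]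
    have := six_choose (3 * k + 1)
    rw [show 3 * k + 1 + 2 = 3 * (k + 1) by ring] at this
    nlinarith
  · rw [turan1]
    have := six_choose (3 * k + 2)
    rw [show 3 * k + 2 + 2 = 3 * (k + 1) + 1 by ring] at this
    nlinarith
  · rw [turan2]
    have := six_choose (3 * k)
    nlinarith

/-- two orbits -/
lemma num2 (N g : ℕ) (hN : 1 ≤ N) (h : 6 * (2 * N).choose 3 ≤ 6 * g + 3 * ((N - 1) * N ^ 2)) :
    turan (2 * N) ≤ g := by
  obtain ⟨M, rfl⟩ : ∃ M, N = M + 1 := ⟨N - 1, by omega⟩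
  have h6 := six_choose (2 * M)
  rw [show 2 * M + 2 = 2 * (M + 1) by ring] at h6
  rw [h6, Nat.add_sub_cancel] at h
  rcases cases3 (2 * (M + 1)) with h0 | h0 | ⟨k, hk⟩ | ⟨k, hk⟩ | ⟨k, hk⟩
  · omega
  · omega
  · rw [hk, turan0]
    obtain ⟨j, rfl⟩ : ∃ j, k = 2 * j + 1 := ⟨k / 2, by omega⟩
    have : M = 3 * j + 2 := by omega
    subst this
    nlinarith
  · rw [hk, turan1]
    obtain ⟨j, rfl⟩ : ∃ j, k = 2 * j := ⟨k / 2, by omega⟩
    have : M = 3 * j + 1 := by omega
    subst this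
    nlinarith
  · rw [hk, turan2]
    obtain ⟨j, rfl⟩ : ∃ j, k = 2 * j := ⟨k / 2, by omega⟩
    have : M = 3 * j := by omega
    subst this
    nlinarith

/-- four orbits -/
lemma num4 (N g : ℕ) (hN : 1 ≤ N) (h : 59 * N ^ 3 + 16 * N ≤ 12 * g + 63 * N ^ 2) :
    turan (4 * N) ≤ g := by
  rcases cases3 N with h0 | h0 | ⟨k, hk⟩ | ⟨k, hk⟩ | ⟨k, hk⟩
  · omega
  · subst h0
    rw [show turan (4 * 1) = 1 by decide]; omega
  · subst hk
    rw [show 4 * (3 * (k + 1)) = 3 * ((4 * k + 3) + 1) by ring, turan0]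
    nlinarith
  · subst hk
    rw [show 4 * (3 * (k + 1) + 1) = 3 * ((4 * k + 4) + 1) + 1 by ring, turan1]
    nlinarith
  · subst hk
    rw [show 4 * (3 * k + 2) = 3 * (4 * k + 2) + 2 by ring, turan2]
    nlinarith

variable {V H : Type} [Fintype V] [DecidableEq V] [Group H] [Fintype H] [MulAction H V]

omit [DecidableEq V] [Fintype H] in
lemma orbits {m : ℕ} (hact : ∀ (a : H) (x : V), a • x = x → a = 1)
    (horb : Nat.card (orbitRel.Quotient H V) = m) :
    ∃ φ : Fin m × H → V, Function.Bijective φ ∧ ∀ i a v, φ (i, v * a) = v • φ (i, a) := by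
  have hfin : Finite (orbitRel.Quotient H V) := Quotient.finite _
  let e : orbitRel.Quotient H V ≃ Fin m := Finite.equivFinOfCardEq horb
  refine ⟨fun p => p.2 • Quotient.out (e.symm p.1), ?_, ?_⟩
  · have h1 := coords (H := H) (X := V) hact
    have h3 : (fun p : Fin m × H => p.2 • Quotient.out (e.symm p.1)) =
        (fun p : orbitRel.Quotient H V × H => p.2 • Quotient.out p.1) ∘
        (Equiv.prodCongr e.symm (Equiv.refl H)) := by
      funext p; rfl
    rw [h3]
    exact h1.comp (Equiv.bijective _)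
  · intro i a v
    simp only
    rw [mul_smul]

/-- the complement of a covering -/
lemma compl_facts (G : Finset (Finset V)) (hG : ∀ e ∈ G, e.card = 3) (hcov : Covers G)
    (hinv : Inv H G) :
    ∃ E : Finset (Finset V), (∀ e ∈ E, e.card = 3) ∧ K4Free E ∧ Inv H E ∧
      E.card + G.card = (Fintype.card V).choose 3 := by
  refine ⟨(univ.powersetCard 3) \ G, ?_, ?_, ?_, ?_⟩
  · exact fun e he => (Finset.mem_powersetCard.mp (Finset.mem_sdiff.mp he).1).2
  · intro a b c d hab hac had hbc hbd hcd ⟨h1, h3, h4, h5⟩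
    rcases hcov a b c d hab hac had hbc hbd hcd with h | h | h | h
    · exact (Finset.mem_sdiff.mp h1).2 h
    · exact (Finset.mem_sdiff.mp h3).2 h
    · exact (Finset.mem_sdiff.mp h4).2 h
    · exact (Finset.mem_sdiff.mp h5).2 h
  · intro v s hs
    obtain ⟨hs1, hs2⟩ := Finset.mem_sdiff.mp hs
    refine Finset.mem_sdiff.mpr ⟨Finset.mem_powersetCard.mpr ⟨Finset.subset_univ _, ?_⟩, ?_⟩
    · rw [Finset.card_image_of_injective _ (MulAction.injective v)]
      exact (Finset.mem_powersetCard.mp hs1).2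
    · intro hG'
      have := hinv v⁻¹ _ hG'
      rw [Finset.image_image] at this
      have h6 : ((fun x : V => v⁻¹ • x) ∘ fun x => v • x) = id := by
        funext x; simp
      rw [h6, Finset.image_id] at this
      exact hs2 this
  · have hsub : G ⊆ univ.powersetCard 3 := by
      intro s hs
      exact Finset.mem_powersetCard.mpr ⟨Finset.subset_univ _, hG s hs⟩
    rw [Finset.card_sdiff_add_card_eq_card hsub, Finset.card_powersetCard, Finset.card_univ]

/-- exactly four orbits -/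
theorem four (h2 : ∀ a : H, a * a = 1) (hact : ∀ (a : H) (x : V), a • x = x → a = 1)
    (horb : Nat.card (orbitRel.Quotient H V) = 4) (G : Finset (Finset V))
    (hG : ∀ e ∈ G, e.card = 3) (hcov : Covers G) (hinv : Inv H G) :
    59 * Fintype.card H ^ 3 + 16 * Fintype.card H ≤ 12 * G.card + 63 * Fintype.card H ^ 2 := by
  obtain ⟨φ, hφ, heq⟩ := orbits hact horb
  obtain ⟨E, hE, hfree, hinvE, hcard⟩ := compl_facts (H := H) G hG hcov hinv
  have hb := bound4 E hE hfree hinvE h2 hact φ hφ heq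
  have hV : Fintype.card V = 4 * Fintype.card H := by
    rw [← Fintype.card_congr (Equiv.ofBijective φ hφ), Fintype.card_prod, Fintype.card_fin]
  rw [hV] at hcard
  have hpos : 0 < Fintype.card H := Fintype.card_pos
  obtain ⟨k, hk⟩ : ∃ k, Fintype.card H = k + 1 := ⟨Fintype.card H - 1, by omega⟩
  rw [hk] at hcard hb ⊢
  have h6 := six_choose (4 * k + 2)
  rw [show 4 * k + 2 + 2 = 4 * (k + 1) by ring] at h6
  nlinarith

/-- at most four orbits -/
theorem main (h2 : ∀ a : H, a * a = 1) (hact : ∀ (a : H) (x : V), a • x = x → a = 1)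
    (horb : Fintype.card V ≤ 4 * Fintype.card H) (G : Finset (Finset V))
    (hG : ∀ e ∈ G, e.card = 3) (hcov : Covers G) (hinv : Inv H G) :
    turan (Fintype.card V) ≤ G.card := by
  obtain ⟨m, hm⟩ : ∃ m, Nat.card (orbitRel.Quotient H V) = m := ⟨_, rfl⟩
  have hpos : 0 < Fintype.card H := Fintype.card_pos
  obtain ⟨φ, hφ, heq⟩ := orbits hact hm
  have hV : Fintype.card V = m * Fintype.card H := by
    rw [← Fintype.card_congr (Equiv.ofBijective φ hφ), Fintype.card_prod, Fintype.card_fin]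
  have hm4 : m ≤ 4 := by
    rw [hV] at horb
    exact Nat.le_of_mul_le_mul_right horb hpos
  interval_cases m
  · rw [hV, Nat.zero_mul]; simp [turan]
  · obtain ⟨E, hE, hfree, hinvE, hcard⟩ := compl_facts (H := H) G hG hcov hinv
    have h6 : 6 * E.card = 0 := by
      rw [← six_card E hE, total E φ hφ]
      simp only [Fin.sum_univ_one]
      exact N_same E hE hfree hinvE h2 hact φ heq 0
    have : E.card = 0 := by omega
    rw [this, zero_add] at hcard
    rw [hcard]
    exact num1 _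
  · obtain ⟨E, hE, hfree, hinvE, hcard⟩ := compl_facts (H := H) G hG hcov hinv
    have h6 : 6 * E.card ≤ 3 * ((Fintype.card H - 1) * Fintype.card H ^ 2) := by
      rw [← six_card E hE, total E φ hφ]
      simp only [Fin.sum_univ_two]
      have s0 := N_same E hE hfree hinvE h2 hact φ heq 0
      have s1 := N_same E hE hfree hinvE h2 hact φ heq 1
      have p01 := N_pair E hE hfree hinvE h2 hact φ hφ.injective heq 0 1 (by decide)
      have c1 : N E φ 0 1 0 = N E φ 0 0 1 := N_comm23 _ _ _ _ _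
      have c2 : N E φ 1 0 0 = N E φ 0 0 1 := by rw [N_comm12, c1]
      have c5 : N E φ 1 0 1 = N E φ 1 1 0 := N_comm23 _ _ _ _ _
      have c6 : N E φ 0 1 1 = N E φ 1 1 0 := by rw [N_comm12, c5]
      omega
    rw [hV] at hcard ⊢
    exact num2 _ _ hpos (by omega)
  · rw [hV]
    have h3 := lower h2 hact hm G hG hcov hinv
    obtain ⟨k, hk⟩ : ∃ k, Fintype.card H = k + 1 := ⟨Fintype.card H - 1, by omega⟩
    rw [hk] at h3 ⊢
    rw [turan0]
    rw [Nat.add_sub_cancel, show 2 * (k + 1) - 1 = 2 * k + 1 by omega] at h3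
    exact h3
  · rw [hV]
    exact num4 _ _ hpos (four h2 hact hm G hG hcov hinv)

end Pool.Agent.H422R3.T4O
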