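import Pool.Agent.H422R3.T4O.Cube

/-!
Summation of the cube inequality.
-/

namespace Pool.Agent.H422R3.T4O

open Finset Pool.Agent.H422R3.T34

section sums

variable {H : Type} [Fintype H]

/-- quadruples -/
def e4 (H : Type) : (Fin 4 → H) ≃ H × H × H × H where
  toFun q := (q 0, q 1, q 2, q 3)
  invFun p := ![p.1, p.2.1, p.2.2.1, p.2.2.2]
  left_inv q := by funext i; fin_cases i <;> rfl
  right_inv p := rfl

lemma sum_three_base [DecidableEq H] (f : H → H → H → ℕ) :
    ∑ q : Fin 4 → H, f (q 0) (q 1) (q 2) = Fintype.card H * ∑ a, ∑ b, ∑ c, f a b c := by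
  have h1 : ∑ q : Fin 4 → H, f (q 0) (q 1) (q 2) = ∑ p : H × H × H × H, f p.1 p.2.1 p.2.2.1 :=
    Fintype.sum_equiv (e4 H) _ _ (fun q => rfl)
  rw [h1, Fintype.sum_prod_type, Finset.mul_sum]
  refine Finset.sum_congr rfl fun a _ => ?_
  rw [Fintype.sum_prod_type, Finset.mul_sum]
  refine Finset.sum_congr rfl fun b _ => ?_
  rw [Fintype.sum_prod_type, Finset.mul_sum]
  refine Finset.sum_congr rfl fun c _ => ?_
  simp

lemma perm3 : ∀ i j k : Fin 4, i ≠ j → i ≠ k → j ≠ k →
    ∃ σ : Equiv.Perm (Fin 4), σ 0 = i ∧ σ 1 = j ∧ σ 2 = k := by decide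

lemma sum_three [DecidableEq H] (f : H → H → H → ℕ) (i j k : Fin 4) (hij : i ≠ j) (hik : i ≠ k)
    (hjk : j ≠ k) :
    ∑ q : Fin 4 → H, f (q i) (q j) (q k) = Fintype.card H * ∑ a, ∑ b, ∑ c, f a b c := by
  obtain ⟨σ, h0, h1, h2⟩ := perm3 i j k hij hik hjk
  rw [← sum_three_base f, ← h0, ← h1, ← h2]
  exact Fintype.sum_equiv (Equiv.arrowCongr σ.symm (Equiv.refl H)) _ _ (fun q => by simp)

lemma sum_two [DecidableEq H] (f : H → H → ℕ) (i j : Fin 4) (hij : i ≠ j) :
    ∑ q : Fin 4 → H, f (q i) (q j) = Fintype.card H ^ 2 * ∑ a, ∑ b, f a b := by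
  have hk : ∀ i j : Fin 4, ∃ k, i ≠ k ∧ j ≠ k := by decide
  obtain ⟨k, h1, h2⟩ := hk i j
  rw [sum_three (fun a b _ => f a b) i j k hij h1 h2]
  simp only [Finset.sum_const, Finset.card_univ, smul_eq_mul, ← Finset.mul_sum]
  ring

end sums

variable {V H : Type} [DecidableEq V] [Group H] [Fintype H] [MulAction H V]

/-- number of arcs -/
def deg (c : Fin 4 → Fin 4 → Bool) : ℕ := ∑ i, ∑ j, if c i j = true then 1 else 0

lemma deg_cases (c : Fin 4 → Fin 4 → Bool) (h0 : ∀ i, c i i = false)
    (h1 : ∀ i j, i ≠ j → ¬ (c i j = true ∧ c j i = true)) :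
    deg c ≤ 5 ∨ (deg c = 6 ∧ ∀ i j, i ≠ j → c i j = true ∨ c j i = true) := by
  have hb : ∀ i j, i ≠ j → (if c i j = true then 1 else 0) + (if c j i = true then 1 else 0) ≤ 1 := by
    intro i j hij
    have := h1 i j hij
    by_cases p : c i j = true
    · by_cases q : c j i = true
      · exact absurd ⟨p, q⟩ this
      · simp [p, q]
    · by_cases q : c j i = true <;> simp [p, q]
  have hd : deg c = ((if c 0 1 = true then 1 else 0) + (if c 1 0 = true then 1 else 0)) +
      ((if c 0 2 = true then 1 else 0) + (if c 2 0 = true then 1 else 0)) +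
      ((if c 0 3 = true then 1 else 0) + (if c 3 0 = true then 1 else 0)) +
      ((if c 1 2 = true then 1 else 0) + (if c 2 1 = true then 1 else 0)) +
      ((if c 1 3 = true then 1 else 0) + (if c 3 1 = true then 1 else 0)) +
      ((if c 2 3 = true then 1 else 0) + (if c 3 2 = true then 1 else 0)) := by
    unfold deg
    simp only [Fin.sum_univ_four, h0 0, h0 1, h0 2, h0 3]
    simp only [Bool.false_eq_true, if_false]
    ring
  have b01 := hb 0 1 (by decide)
  have b02 := hb 0 2 (by decide)
  have b03 := hb 0 3 (by decide)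
  have b12 := hb 1 2 (by decide)
  have b13 := hb 1 3 (by decide)
  have b23 := hb 2 3 (by decide)
  by_cases hall : ∀ i j, i ≠ j → c i j = true ∨ c j i = true
  · right
    refine ⟨?_, hall⟩
    have hb' : ∀ i j, i ≠ j → 1 ≤ (if c i j = true then 1 else 0) + (if c j i = true then 1 else 0) := by
      intro i j hij
      rcases hall i j hij with p | p
      · rw [if_pos p]; omega
      · rw [if_pos p]; omega
    have d01 := hb' 0 1 (by decide)
    have d02 := hb' 0 2 (by decide)
    have d03 := hb' 0 3 (by decide)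
    have d12 := hb' 1 2 (by decide)
    have d13 := hb' 1 3 (by decide)
    have d23 := hb' 2 3 (by decide)
    omega
  · left
    push Not at hall
    obtain ⟨i, j, hij, p, q⟩ := hall
    have z : (if c i j = true then 1 else 0) + (if c j i = true then 1 else 0) = 0 := by
      rw [if_neg p, if_neg q]
    fin_cases i <;> fin_cases j <;> first | (exact absurd rfl hij) | (simp only [Fin.zero_eta, Fin.mk_one, Fin.reduceFinMk] at z; omega)

section
variable (E : Finset (Finset V)) (hE : ∀ e ∈ E, e.card = 3) (hfree : K4Free E) (hinv : Inv H E)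
  (h2 : ∀ a : H, a * a = 1) (hact : ∀ (a : H) (x : V), a • x = x → a = 1)
  (φ : Fin 4 × H → V) (hφ : Function.Injective φ) (heq : ∀ i a v, φ (i, v * a) = v • φ (i, a))

/-- point quadruple -/
def pt (φ : Fin 4 × H → V) (q : Fin 4 → H) : Fin 4 → V := fun i => φ (i, q i)

/-- shift of coordinates -/
def tau (v : H) (hv : v * v = 1) (k : Fin 4) : (Fin 4 → H) ≃ (Fin 4 → H) :=
  Function.Involutive.toPerm (fun q => Function.update q k (v * q k)) (by
    intro q
    simp only [Function.update_self, Function.update_idem]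
    rw [← mul_assoc, hv, one_mul, Function.update_eq_self])

include heq in
omit [DecidableEq V] [Fintype H] in
lemma pt_tau (v : H) (hv : v * v = 1) (k : Fin 4) (q : Fin 4 → H) :
    pt φ (tau v hv k q) = sh v (pt φ q) k := by
  funext i
  unfold pt tau sh
  simp only [Function.Involutive.coe_toPerm]
  by_cases h : i = k
  · subst h; rw [Function.update_self, Function.update_self, heq]
  · rw [Function.update_of_ne h, Function.update_of_ne h]

include hφ heq in
omit [DecidableEq V] [Fintype H] in
lemma pt_trans (q : Fin 4 → H) : Trans H (pt φ q) := by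
  intro i j hij a h
  unfold pt at h
  rw [← heq] at h
  exact hij (congrArg Prod.fst (hφ h))

include hfree hinv h2 hact hφ heq in
/-- the inequality for one group element -/
lemma cube_sum (v : H) (hv : v ≠ 1) :
    2 * ∑ q : Fin 4 → H, deg (code E v (pt φ q)) ≤
      4 * (∑ q : Fin 4 → H, g E (pt φ q)) + 7 * Fintype.card H ^ 4 := by
  classical
  have hcard : Fintype.card (Fin 4 → H) = Fintype.card H ^ 4 := by simp
  have hfib : ∀ F : (Fin 4 → H) → ℕ, ∑ q, F q =
      ∑ c : Fin 4 → Fin 4 → Bool, ∑ q ∈ univ.filter (fun q => code E v (pt φ q) = c), F q :=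
    fun F => (Finset.sum_fiberwise univ (fun q => code E v (pt φ q)) F).symm
  have key : ∀ c : Fin 4 → Fin 4 → Bool,
      2 * ∑ q ∈ univ.filter (fun q => code E v (pt φ q) = c), deg (code E v (pt φ q)) ≤
      4 * (∑ q ∈ univ.filter (fun q => code E v (pt φ q) = c), g E (pt φ q)) +
      7 * ∑ q ∈ univ.filter (fun q => code E v (pt φ q) = c), 1 := by
    intro c
    rcases (univ.filter (fun q => code E v (pt φ q) = c)).eq_empty_or_nonempty with hem | ⟨q₀, hq₀⟩
    · rw [hem]; simp
    · have hc₀ : code E v (pt φ q₀) = c := (Finset.mem_filter.mp hq₀).2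
      have h0 : ∀ i, c i i = false := by
        intro i; rw [← hc₀]; simp [code]
      have h1 : ∀ i j, i ≠ j → ¬ (c i j = true ∧ c j i = true) := by
        rintro i j hij ⟨p, r⟩
        rw [← hc₀] at p r
        unfold code at p r
        simp only [decide_eq_true_eq] at p r
        have := pair_orbits E hfree hinv h2 hact (pt φ q₀ i) (pt φ q₀ j) v hv
          (pt_trans φ hφ heq q₀ i j hij)
        unfold ind at this
        rw [if_pos p.2, if_pos r.2] at this
        omega
      have hdeg : ∑ q ∈ univ.filter (fun q => code E v (pt φ q) = c), deg (code E v (pt φ q)) =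
          ∑ q ∈ univ.filter (fun q => code E v (pt φ q) = c), deg c := by
        refine Finset.sum_congr rfl fun q hq => ?_
        rw [(Finset.mem_filter.mp hq).2]
      rw [hdeg]
      rcases deg_cases c h0 h1 with hlt | ⟨h6, hall⟩
      · rw [Finset.mul_sum, Finset.mul_sum, Finset.mul_sum, ← Finset.sum_add_distrib]
        refine Finset.sum_le_sum fun q _ => ?_
        have := g_pos E hfree (H := H) (pt φ q) (pt_trans φ hφ heq q)
        omega
      · obtain ⟨a, b, hab, hgood⟩ := good E hfree hinv h2 hact v hv c hall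
        set S := univ.filter (fun q => code E v (pt φ q) = c) with hS
        have inv : ∀ (k : Fin 4) (F : (Fin 4 → H) → ℕ),
            ∑ q ∈ S, F (tau v (h2 v) k q) = ∑ q ∈ S, F q := by
          intro k F
          apply Finset.sum_equiv (tau v (h2 v) k)
          · intro q
            simp only [hS, Finset.mem_filter, Finset.mem_univ, true_and]
            rw [pt_tau φ heq, code_sh E hinv h2 v]
          · intro q _; rfl
        have i1 := inv a (fun q => g E (pt φ q))
        have i2 := inv b (fun q => g E (pt φ q))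
        have i3 : ∑ q ∈ S, g E (pt φ (tau v (h2 v) b (tau v (h2 v) a q))) = ∑ q ∈ S, g E (pt φ q) := by
          have h3 := inv a (fun q => g E (pt φ (tau v (h2 v) b q)))
          rw [h3]
          exact i2
        have h5 : ∑ q ∈ S, 5 ≤ ∑ q ∈ S, (g E (pt φ q) + g E (pt φ (tau v (h2 v) a q)) +
            g E (pt φ (tau v (h2 v) b q)) + g E (pt φ (tau v (h2 v) b (tau v (h2 v) a q)))) := by
          refine Finset.sum_le_sum fun q hq => ?_
          have hcq : code E v (pt φ q) = c := (Finset.mem_filter.mp hq).2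
          have := hgood (pt φ q) (pt_trans φ hφ heq q) hcq
          rw [pt_tau φ heq, pt_tau φ heq, pt_tau φ heq, pt_tau φ heq]
          exact this
        rw [Finset.sum_add_distrib, Finset.sum_add_distrib, Finset.sum_add_distrib] at h5
        rw [i1, i2, i3] at h5
        rw [Finset.sum_const, smul_eq_mul] at h5 ⊢
        rw [Finset.sum_const, smul_eq_mul, h6]
        omega
  rw [hfib (fun q => deg (code E v (pt φ q))), hfib (fun q => g E (pt φ q)), ← hcard,
    ← Finset.card_univ (α := Fin 4 → H), Finset.card_eq_sum_ones, hfib (fun _ => 1),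
    Finset.mul_sum, Finset.mul_sum, Finset.mul_sum, ← Finset.sum_add_distrib]
  exact Finset.sum_le_sum fun c _ => key c

end

end Pool.Agent.H422R3.T4O
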